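import Pool.Agent.helper747_ts.Count

/-! Circuits on literals, faults, and the transfer to monotone functions. -/

set_option autoImplicit false

namespace Pool.Agent.helper747_ts

open Finset

/-- A circuit with the gates `0, ..., s - 1` that reads a set of integers through presence bits and their negations:
the literal `(z, true)` is `1` if `z` is in the set and `0` otherwise, `(z, false)` stands for its negation. Gate `i`
has `w i ≤ 2` inputs, namely `a i j`, each a literal or an earlier gate; it computes a nondecreasing function `op i`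
of real numbers, and its value on the values `y` of the literals is `val y i`. The circuit accepts if the value of
gate `out` is at least `τ`. -/
structure LiteralCircuit where
  s : ℕ
  w : Fin s → ℕ
  a : (i : Fin s) → Fin (w i) → (ℤ × Bool) ⊕ Fin s
  op : (i : Fin s) → (Fin (w i) → ℝ) → ℝ
  val : (ℤ × Bool → Bool) → Fin s → ℝ
  out : Fin s
  τ : ℝ
  earlier : ∀ i j m, a i j = Sum.inr m → m < i
  mono : ∀ i, w i ≤ 2 ∧ Monotone (op i)
  spec : ∀ y i, val y i = op i (fun j =>
    Sum.elim (fun p => if y p = true then (1 : ℝ) else 0) (val y) (a i j))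

open Classical in
/-- The values of the literals on the set `S` if the negated inputs of the integers in `Z` are stuck at `0`. -/
noncomputable def literals (S : Finset ℤ) (Z : Set ℤ) : ℤ × Bool → Bool :=
  fun p => if p.2 = true then decide (p.1 ∈ S) else decide (p.1 ∉ S ∧ p.1 ∉ Z)

/-- The circuit accepts the set `S` if the negated inputs of the integers in `Z` are stuck at `0`. -/
def LiteralCircuit.Accepts (C : LiteralCircuit) (S : Finset ℤ) (Z : Set ℤ) : Prop :=
  C.τ ≤ C.val (literals S Z) C.out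

/-- The integers `z` with `f z = 0`, for `f : {0, ..., B} → {0, ..., D - 1}`. -/
def faults {B D : ℕ} (f : Fin (B + 1) → Fin D) : Set ℤ :=
  {z | ∃ i : Fin (B + 1), ((i : ℕ) : ℤ) = z ∧ (f i : ℕ) = 0}

/-- `S` has three pairwise different elements `a, b, c` with `a + b = c`. -/
def HasSum (S : Finset ℤ) : Prop :=
  ∃ a ∈ S, ∃ b ∈ S, ∃ c ∈ S, a ≠ b ∧ a ≠ c ∧ b ≠ c ∧ a + b = c

theorem val_mono (C : LiteralCircuit) {y y' : ℤ × Bool → Bool} (h : ∀ p, y p = true → y' p = true) :
    ∀ i, C.val y i ≤ C.val y' i := by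
  have key : ∀ n : ℕ, ∀ i : Fin C.s, (i : ℕ) < n → C.val y i ≤ C.val y' i := by
    intro n
    induction n with
    | zero => intro i hi; omega
    | succ n ih =>
      intro i hi
      rw [C.spec y i, C.spec y' i]
      apply (C.mono i).2
      intro j
      show Sum.elim (fun p => if y p = true then (1 : ℝ) else 0) (C.val y) (C.a i j) ≤
        Sum.elim (fun p => if y' p = true then (1 : ℝ) else 0) (C.val y') (C.a i j)
      rcases hj : C.a i j with p | m
      · simp only [Sum.elim_inl]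
        by_cases h1 : y p = true
        · rw [if_pos h1, if_pos (h p h1)]
        · rw [if_neg h1]
          split_ifs <;> norm_num
      · simp only [Sum.elim_inr]
        have h2 := C.earlier i j m hj
        exact ih m (by have h3 : (m : ℕ) < i := h2; omega)
  exact fun i => key _ i (Nat.lt_succ_self _)

section

variable {B D K : ℕ}

/-- `e = 2 K z + t` with `t < K` and `z` in `S` -/
def Blk (K : ℕ) (S : Finset ℤ) (e : Fin (B + 1)) : Prop :=
  (e : ℕ) % (2 * K) < K ∧ (((e : ℕ) / (2 * K) : ℕ) : ℤ) ∈ S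

open Classical in
/-- the set hidden in the zeros of `g` -/
noncomputable def tg (K : ℕ) (S : Finset ℤ) (g : Fin (B + 1) → Fin D) : Finset ℤ :=
  (univ.filter (fun e : Fin (B + 1) => (g e : ℕ) = 0 ∧ Blk K S e)).image
    (fun e : Fin (B + 1) => ((e : ℕ) : ℤ))

theorem mem_tg {S : Finset ℤ} {g : Fin (B + 1) → Fin D} {z : ℤ} :
    z ∈ tg K S g ↔ ∃ e : Fin (B + 1), ((e : ℕ) : ℤ) = z ∧ (g e : ℕ) = 0 ∧ Blk K S e := by
  classical
  unfold tg
  rw [mem_image]
  constructor
  · rintro ⟨e, he, h⟩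
    exact ⟨e, h, (mem_filter.1 he).2⟩
  · rintro ⟨e, h, he⟩
    exact ⟨e, mem_filter.2 ⟨mem_univ _, he⟩, h⟩

/-- the source of a literal -/
noncomputable def src (K : ℕ) (g : Fin (B + 1) → Fin D) (p : ℤ × Bool) : ℤ :=
  open Classical in
  if p.2 = true ∧ ∃ e : Fin (B + 1), ((e : ℕ) : ℤ) = p.1 ∧ (g e : ℕ) = 0 ∧ (e : ℕ) % (2 * K) < K then
    p.1 / (2 * K : ℕ) else -1

/-- the literals as monotone functions of the hidden set -/
noncomputable def L (K : ℕ) (g : Fin (B + 1) → Fin D) (x : ℤ → Bool) (p : ℤ × Bool) : Bool :=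
  open Classical in if p.2 = false ∧ p.1 ∉ faults g then true else x (src K g p)

open Classical in
/-- the bits of a set -/
noncomputable def xS (S : Finset ℤ) : ℤ → Bool := fun z => decide (z ∈ S)

theorem xS_true {S : Finset ℤ} {z : ℤ} : xS S z = true ↔ z ∈ S := by
  unfold xS
  rw [decide_eq_true_iff]

theorem fin_eq {e e' : Fin (B + 1)} {z : ℤ} (h : ((e : ℕ) : ℤ) = z) (h' : ((e' : ℕ) : ℤ) = z) :
    e = e' := by
  apply Fin.ext
  exact_mod_cast h.trans h'.symm

theorem L_pos {S : Finset ℤ} (hS : ∀ z ∈ S, 0 ≤ z) {g : Fin (B + 1) → Fin D} {z : ℤ} :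
    L K g (xS S) (z, true) = true ↔ z ∈ tg K S g := by
  unfold L
  rw [if_neg (by simp), xS_true, mem_tg]
  unfold src
  constructor
  · intro h
    split_ifs at h with h1
    · obtain ⟨-, e, he, hg, ht⟩ := h1
      have he : ((e : ℕ) : ℤ) = z := he
      refine ⟨e, he, hg, ht, ?_⟩
      have h2 : (((e : ℕ) / (2 * K) : ℕ) : ℤ) = z / (2 * K : ℕ) := by
        rw [← he]
        push_cast
        rfl
      rw [h2]
      exact h
    · exact absurd (hS _ h) (by norm_num)
  · rintro ⟨e, he, hg, ht, hm⟩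
    rw [if_pos ⟨rfl, e, he, hg, ht⟩]
    have h2 : (((e : ℕ) / (2 * K) : ℕ) : ℤ) = z / (2 * K : ℕ) := by
      rw [← he]
      push_cast
      rfl
    rw [← h2]
    exact hm

theorem L_neg {S : Finset ℤ} (hS : ∀ z ∈ S, 0 ≤ z) {g : Fin (B + 1) → Fin D} {z : ℤ} :
    L K g (xS S) (z, false) = true ↔ z ∉ faults g := by
  unfold L
  constructor
  · intro h hz
    rw [if_neg (fun h1 => h1.2 hz), xS_true] at h
    unfold src at h
    rw [if_neg (by simp)] at h
    exact absurd (hS _ h) (by norm_num)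
  · intro h
    rw [if_pos ⟨rfl, h⟩]

theorem L_le {S : Finset ℤ} (hS : ∀ z ∈ S, 0 ≤ z) {g : Fin (B + 1) → Fin D} (p : ℤ × Bool)
    (h : L K g (xS S) p = true) : literals (tg K S g) ∅ p = true := by
  obtain ⟨z, _ | _⟩ := p
  · rw [L_neg hS] at h
    unfold literals
    simp only [Bool.false_eq_true, if_false, Set.mem_empty_iff_false, not_false_eq_true, and_true,
      decide_eq_true_eq]
    intro h1
    obtain ⟨e, he, hg, -⟩ := mem_tg.1 h1
    exact h ⟨e, he, hg⟩
  · rw [L_pos hS] at h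
    unfold literals
    simp only [if_true, decide_eq_true_eq]
    exact h

theorem le_L {S : Finset ℤ} (hS : ∀ z ∈ S, 0 ≤ z) {g h : Fin (B + 1) → Fin D} (p : ℤ × Bool)
    (hp : literals (tg K S g) (faults h) p = true) : L K (mix (Blk K S) g h) (xS S) p = true := by
  obtain ⟨z, _ | _⟩ := p
  · unfold literals at hp
    simp only [Bool.false_eq_true, if_false, decide_eq_true_eq] at hp
    rw [L_neg hS]
    rintro ⟨e, he, hm⟩
    unfold mix at hm
    split_ifs at hm with h1
    · exact hp.1 (mem_tg.2 ⟨e, he, hm, h1⟩)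
    · exact hp.2 ⟨e, he, hm⟩
  · unfold literals at hp
    simp only [if_true, decide_eq_true_eq] at hp
    rw [L_pos hS]
    obtain ⟨e, he, hg, hb⟩ := mem_tg.1 hp
    refine mem_tg.2 ⟨e, he, ?_, hb⟩
    unfold mix
    rw [if_pos hb]
    exact hg

theorem tg_card {S : Finset ℤ} {g : Fin (B + 1) → Fin D} (hK : 0 < K) :
    (tg K S g).card ≤ K * S.card := by
  classical
  have h1 : (tg K S g) ⊆ (range K ×ˢ S).image (fun q => q.2 * (2 * K : ℕ) + (q.1 : ℤ)) := by
    intro z hz
    obtain ⟨e, he, -, ht, hm⟩ := mem_tg.1 hz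
    refine mem_image.2 ⟨((e : ℕ) % (2 * K), (((e : ℕ) / (2 * K) : ℕ) : ℤ)),
      mem_product.2 ⟨mem_range.2 ht, hm⟩, ?_⟩
    rw [← he]
    have h2 := Nat.div_add_mod' (e : ℕ) (2 * K)
    show (((e : ℕ) / (2 * K) : ℕ) : ℤ) * (2 * K : ℕ) + (((e : ℕ) % (2 * K) : ℕ) : ℤ) = ((e : ℕ) : ℤ)
    exact_mod_cast h2
  refine (card_le_card h1).trans (card_image_le.trans ?_)
  rw [card_product, card_range]

theorem tg_range {S : Finset ℤ} {g : Fin (B + 1) → Fin D} {z : ℤ} (hz : z ∈ tg K S g) :
    0 ≤ z ∧ z ≤ B := by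
  obtain ⟨e, he, -⟩ := mem_tg.1 hz
  rw [← he]
  have := e.isLt
  constructor
  · positivity
  · exact_mod_cast (by omega : (e : ℕ) ≤ B)

theorem tg_no {S : Finset ℤ} {g : Fin (B + 1) → Fin D} (hno : ∀ a ∈ S, ∀ b ∈ S, a + b ∉ S) :
    ¬ HasSum (tg K S g) := by
  rintro ⟨a, ha, b, hb, c, hc, -, -, -, hs⟩
  obtain ⟨e1, h1, -, t1, m1⟩ := mem_tg.1 ha
  obtain ⟨e2, h2, -, t2, m2⟩ := mem_tg.1 hb
  obtain ⟨e3, h3, -, t3, m3⟩ := mem_tg.1 hc
  have h4 : (e1 : ℕ) + e2 = e3 := by
    rw [← h1, ← h2, ← h3] at hs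
    exact_mod_cast hs
  have h5 : (e3 : ℕ) / (2 * K) = (e1 : ℕ) / (2 * K) + (e2 : ℕ) / (2 * K) := by
    rw [← h4]
    exact Nat.add_div_eq_of_add_mod_lt (by omega)
  apply hno _ m1 _ m2
  have h6 := m3
  rw [h5] at h6
  push_cast at h6 ⊢
  exact h6

/-- most `g` show a solution -/
theorem tg_yes {S : Finset ℤ} (hS : ∀ z ∈ S, 0 ≤ z) (hD : 0 < D) {J : ℕ} (hJ : 2 * J ≤ K)
    (hsum : HasSum S) (hB : ∀ z ∈ S, z * (2 * K : ℕ) + (K : ℤ) ≤ B + 1) :
    (Nat.card {g : Fin (B + 1) → Fin D // ¬ HasSum (tg K S g)} : ℝ) ≤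
      (1 - 1 / (D : ℝ) ^ 3) ^ J * (D : ℝ) ^ (B + 1) := by
  classical
  obtain ⟨a, ha, b, hb, c, hc, hab, hac, hbc, hs⟩ := hsum
  obtain ⟨a', rfl⟩ := Int.eq_ofNat_of_zero_le (hS a ha)
  obtain ⟨b', rfl⟩ := Int.eq_ofNat_of_zero_le (hS b hb)
  obtain ⟨c', rfl⟩ := Int.eq_ofNat_of_zero_le (hS c hc)
  have hab' : a' ≠ b' := fun h => hab (by rw [h])
  have hac' : a' ≠ c' := fun h => hac (by rw [h])
  have hbc' : b' ≠ c' := fun h => hbc (by rw [h])
  have hs' : a' + b' = c' := by exact_mod_cast hs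
  have hBa : a' * (2 * K) + K ≤ B + 1 := by exact_mod_cast hB _ ha
  have hBb : b' * (2 * K) + K ≤ B + 1 := by exact_mod_cast hB _ hb
  have hBc : c' * (2 * K) + K ≤ B + 1 := by exact_mod_cast hB _ hc
  let base : Fin 3 → ℕ := ![a', b', c']
  let mul : Fin 3 → ℕ := ![1, 1, 2]
  have hbase : Function.Injective base := by
    intro i i' h
    fin_cases i <;> fin_cases i' <;> simp_all [base]
  have hmul : ∀ i, 1 ≤ mul i ∧ mul i ≤ 2 := by
    intro i
    fin_cases i <;> simp [mul]
  have hlt : ∀ (j : Fin J) (i : Fin 3), mul i * (j : ℕ) < K := by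
    intro j i
    have h1 := j.isLt
    have h2 := (hmul i).2
    calc mul i * (j : ℕ) ≤ 2 * j := Nat.mul_le_mul_right _ h2
      _ < K := by omega
  have hval : ∀ (j : Fin J) (i : Fin 3), base i * (2 * K) + mul i * j < B + 1 := by
    intro j i
    have h1 := hlt j i
    have h2 : base i * (2 * K) + K ≤ B + 1 := by
      fin_cases i
      · exact hBa
      · exact hBb
      · exact hBc
    omega
  let p : Fin J → Fin 3 → Fin (B + 1) := fun j i => ⟨base i * (2 * K) + mul i * j, hval j i⟩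
  have hmod : ∀ j i, (p j i : ℕ) % (2 * K) = mul i * j := by
    intro j i
    show (base i * (2 * K) + mul i * j) % (2 * K) = mul i * j
    exact Nat.mul_add_mod_of_lt (by have := hlt j i; omega)
  have hdiv : ∀ j i, (p j i : ℕ) / (2 * K) = base i := by
    intro j i
    have h1 := hlt j i
    show (base i * (2 * K) + mul i * j) / (2 * K) = base i
    rw [Nat.div_eq_iff (by omega)]
    constructor <;> omega
  have hp : Function.Injective (fun x : Fin J × Fin 3 => p x.1 x.2) := by
    rintro ⟨j, i⟩ ⟨j', i'⟩ h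
    have h' : p j i = p j' i' := h
    have h1 : base i = base i' := by rw [← hdiv j i, ← hdiv j' i', h']
    have h2 : i = i' := hbase h1
    subst h2
    have h3 : mul i * (j : ℕ) = mul i * j' := by rw [← hmod j i, ← hmod j' i, h']
    have h4 : (j : ℕ) = j' := Nat.eq_of_mul_eq_mul_left (hmul i).1 h3
    rw [Fin.ext h4]
  have h1 := count_bad hD p hp
  rw [Fintype.card_fin] at h1
  refine le_trans ?_ h1
  rw [Nat.cast_le]
  refine Nat.card_le_card_of_injective (fun g => ⟨g.1, fun j => ?_⟩) ?_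
  · by_contra hcon
    push Not at hcon
    apply g.2
    have hmem : ∀ i, (((p j i : Fin (B + 1)) : ℕ) : ℤ) ∈ tg K S g.1 := by
      intro i
      refine mem_tg.2 ⟨p j i, rfl, hcon i, ?_, ?_⟩
      · rw [hmod]
        exact hlt j i
      · rw [hdiv]
        fin_cases i
        · exact ha
        · exact hb
        · exact hc
    have hne : ∀ i i', i ≠ i' → (((p j i : Fin (B + 1)) : ℕ) : ℤ) ≠ ((p j i' : Fin (B + 1)) : ℕ) := by
      intro i i' hii h
      apply hii
      have h2 : p j i = p j i' := Fin.ext (by exact_mod_cast h)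
      have h3 := @hp (j, i) (j, i') h2
      exact (Prod.mk.inj h3).2
    refine ⟨_, hmem 0, _, hmem 1, _, hmem 2, hne _ _ (by decide), hne _ _ (by decide),
      hne _ _ (by decide), ?_⟩
    have h2 : (p j 0 : ℕ) + (p j 1 : ℕ) = (p j 2 : ℕ) := by
      show (a' * (2 * K) + 1 * j) + (b' * (2 * K) + 1 * j) = c' * (2 * K) + 2 * (j : ℕ)
      rw [← hs']
      ring
    exact_mod_cast h2
  · intro g g' h
    apply Subtype.ext
    simp only [Subtype.mk.injEq] at h
    exact h

end

end Pool.Agent.helper747_ts
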