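import Mathlib

/-! Counting lemmas for random faults. -/

set_option autoImplicit false

namespace Pool.Agent.helper747_ts

open Finset

/-- few functions are nonzero somewhere on each of `J` disjoint triples -/
theorem count_bad {E : Type} [Fintype E] {D J : ℕ} (hD : 0 < D) (p : Fin J → Fin 3 → E)
    (hp : Function.Injective (fun x : Fin J × Fin 3 => p x.1 x.2)) :
    (Nat.card {g : E → Fin D // ∀ j, ∃ i, (g (p j i) : ℕ) ≠ 0} : ℝ) ≤
      (1 - 1 / (D : ℝ) ^ 3) ^ J * (D : ℝ) ^ Fintype.card E := by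
  classical
  let Rg : Set E := Set.range (fun x : Fin J × Fin 3 => p x.1 x.2)
  let V : Type := {v : Fin 3 → Fin D // ∃ i, (v i : ℕ) ≠ 0}
  let Y : Type := (Fin J → V) × ({e : E // e ∉ Rg} → Fin D)
  let φ : {g : E → Fin D // ∀ j, ∃ i, (g (p j i) : ℕ) ≠ 0} → Y := fun g =>
    (fun j => ⟨fun i => g.1 (p j i), g.2 j⟩, fun e => g.1 e.1)
  have hφ : Function.Injective φ := by
    intro g g' h
    apply Subtype.ext
    funext e
    by_cases he : e ∈ Rg
    · obtain ⟨⟨j, i⟩, hji⟩ := he
      have h1 := congrArg (fun y : Y => (y.1 j).1 i) h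
      rw [← hji]
      exact h1
    · exact congrFun (congrArg Prod.snd h) ⟨e, he⟩
  have h1 : Nat.card {g : E → Fin D // ∀ j, ∃ i, (g (p j i) : ℕ) ≠ 0} ≤ Nat.card Y :=
    Nat.card_le_card_of_injective φ hφ
  have hV : Nat.card V = D ^ 3 - 1 := by
    rw [Nat.card_eq_fintype_card, Fintype.card_subtype]
    have h2 : (univ.filter fun v : Fin 3 → Fin D => ∃ i, (v i : ℕ) ≠ 0) =
        univ.erase (fun _ => ⟨0, hD⟩) := by
      ext v
      simp only [mem_filter, mem_univ, true_and, mem_erase, and_true, ne_eq]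
      rw [← not_forall]
      apply not_congr
      constructor
      · intro h
        funext i
        exact Fin.ext (h i)
      · intro h i
        rw [h]
    rw [h2, card_erase_of_mem (mem_univ _), card_univ, Fintype.card_fun, Fintype.card_fin,
      Fintype.card_fin]
  have hR : Nat.card {e : E // e ∉ Rg} + 3 * J = Fintype.card E := by
    have h2 : Nat.card Rg = 3 * J := by
      have h3 : Nat.card (Fin J × Fin 3) = Nat.card Rg :=
        Nat.card_congr (Equiv.ofInjective _ hp)
      rw [← h3, Nat.card_prod, Nat.card_eq_fintype_card, Nat.card_eq_fintype_card,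
        Fintype.card_fin, Fintype.card_fin, mul_comm]
    have h4 : Nat.card ({e : E // e ∈ Rg} ⊕ {e : E // ¬ e ∈ Rg}) = Nat.card E :=
      Nat.card_congr (Equiv.sumCompl (fun e => e ∈ Rg))
    rw [Nat.card_sum, Nat.card_eq_fintype_card (α := E)] at h4
    rw [← h2, ← h4]
    exact add_comm _ _
  have hY : Nat.card Y = (D ^ 3 - 1) ^ J * D ^ Nat.card {e : E // e ∉ Rg} := by
    rw [Nat.card_prod, Nat.card_fun, Nat.card_fun, hV, Nat.card_eq_fintype_card (α := Fin J),
      Fintype.card_fin, Nat.card_eq_fintype_card (α := Fin D), Fintype.card_fin]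
  have hD0 : (0 : ℝ) < D := by exact_mod_cast hD
  have hD1 : 1 ≤ D ^ 3 := Nat.one_le_pow _ _ hD
  have h5 : (Nat.card {g : E → Fin D // ∀ j, ∃ i, (g (p j i) : ℕ) ≠ 0} : ℝ) ≤ (Nat.card Y : ℝ) :=
    Nat.cast_le.mpr h1
  refine h5.trans (le_of_eq ?_)
  rw [hY, ← hR]
  push_cast [Nat.cast_sub hD1]
  rw [pow_add, pow_mul, show (1 - 1 / (D : ℝ) ^ 3) = ((D : ℝ) ^ 3 - 1) / (D : ℝ) ^ 3 by
    field_simp, div_pow]
  field_simp

/-- mixing two functions -/
noncomputable def mix {E F : Type} (P : E → Prop) (g h : E → F) : E → F :=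
  open Classical in fun e => if P e then g e else h e

theorem sum_mix {E F : Type} [Fintype E] [DecidableEq E] [Fintype F] (P : E → Prop)
    (φ : (E → F) → ℝ) :
    ∑ v : (E → F) × (E → F), φ (mix P v.1 v.2) =
      (Fintype.card F : ℝ) ^ Fintype.card E * ∑ k, φ k := by
  classical
  have hinv : Function.Involutive (fun v : (E → F) × (E → F) => (mix P v.1 v.2, mix P v.2 v.1)) := by
    rintro ⟨g, h⟩
    apply Prod.ext
    · funext e
      simp only [mix]
      by_cases he : P e <;> simp [he]
    · funext e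
      simp only [mix]
      by_cases he : P e <;> simp [he]
  have h1 := Equiv.sum_comp (Function.Involutive.toPerm _ hinv)
    (fun v : (E → F) × (E → F) => φ v.1)
  have h2 : ∀ v : (E → F) × (E → F),
      (fun v : (E → F) × (E → F) => φ v.1) (Function.Involutive.toPerm _ hinv v) =
        φ (mix P v.1 v.2) := fun v => rfl
  simp only [h2] at h1
  rw [h1, Fintype.sum_prod_type]
  simp only [sum_const, card_univ, nsmul_eq_mul, Fintype.card_fun]
  rw [← mul_sum]
  push_cast
  rfl

end Pool.Agent.helper747_ts
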