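import Pool.Agent.helper747_ts.Main

/-! The main theorem for unreliable negations. -/

set_option autoImplicit false

namespace Pool.Agent.helper747_ts

open Finset Filter

theorem exists_m (ε : ℝ) (hε : 0 < ε) : ∃ m : ℕ, 1 ≤ m ∧ Real.exp (-(m : ℝ)) ≤ ε / 4 := by
  obtain ⟨m, hm⟩ := exists_nat_gt (max 1 (-Real.log (ε / 4)))
  refine ⟨m, ?_, ?_⟩
  · have h1 : (1 : ℝ) < m := (le_max_left _ _).trans_lt hm
    exact_mod_cast h1.le
  · have h1 : -Real.log (ε / 4) < m := (le_max_right _ _).trans_lt hm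
    calc Real.exp (-(m : ℝ)) ≤ Real.exp (Real.log (ε / 4)) := Real.exp_le_exp.2 (by linarith)
      _ = ε / 4 := Real.exp_log (by linarith)

theorem pow_bound {D m : ℕ} (hD : 1 ≤ D) :
    (1 - 1 / (D : ℝ) ^ 3) ^ (D ^ 3 * m) ≤ Real.exp (-(m : ℝ)) := by
  have hD0 : (0 : ℝ) < D := by exact_mod_cast hD
  have hD1 : (1 : ℝ) ≤ (D : ℝ) ^ 3 := one_le_pow₀ (by exact_mod_cast hD)
  have h1 : 1 - 1 / (D : ℝ) ^ 3 ≤ Real.exp (-(1 / (D : ℝ) ^ 3)) := by
    have := Real.add_one_le_exp (-(1 / (D : ℝ) ^ 3))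
    linarith
  have h0 : 0 ≤ 1 - 1 / (D : ℝ) ^ 3 := by
    have : 1 / (D : ℝ) ^ 3 ≤ 1 := by
      rw [div_le_one (by positivity)]
      exact hD1
    linarith
  refine (pow_le_pow_left₀ h0 h1 _).trans (le_of_eq ?_)
  rw [← Real.exp_nat_mul]
  congr 1
  push_cast
  field_simp

/-- the parameters -/
theorem exists_params (t b : ℝ) (ht : 0 ≤ t) (ht2 : t < 2) (hb : 0 < b) (m N1 : ℕ) (hm : 1 ≤ m) :
    ∃ n0 : ℕ, ∀ n : ℕ, n0 ≤ n → 3 ≤ n ∧ ∀ D : ℕ, 1 ≤ D → (D : ℝ) ≤ (n : ℝ) ^ ((2 - t) / 24) →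
      ∀ K : ℕ, K = 2 * (D ^ 3 * m) → N1 ≤ n / K ∧ (n : ℝ) ^ t ≤ ((n / K : ℕ) : ℝ) ^ (1 + t / 2) ∧
        (((n / K : ℕ) : ℝ) ^ (1 + b / 2)) * (2 * K) + K ≤ (n : ℝ) ^ (1 + b) := by
  have hm0 : (0 : ℝ) < m := by exact_mod_cast hm
  have hm1 : (1 : ℝ) ≤ m := by exact_mod_cast hm
  have tend : ∀ e : ℝ, 0 < e → ∀ M : ℝ, ∀ᶠ n : ℕ in atTop, M ≤ (n : ℝ) ^ e := fun e he M =>
    ((tendsto_rpow_atTop he).comp tendsto_natCast_atTop_atTop).eventually_ge_atTop M
  have he : (0 : ℝ) < 1 - (2 - t) / 8 := by linarith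
  have he2 : (0 : ℝ) < (2 - t) / 4 := by linarith
  obtain ⟨n0, hn0⟩ := eventually_atTop.1 ((eventually_ge_atTop 3).and
    ((tend _ he (4 * m)).and ((tend _ he (4 * m * N1)).and
      ((tend _ he2 ((4 * m) ^ 2)).and (tend (b / 2) (by linarith) (2 + 2 * m))))))
  refine ⟨n0, fun n hn => ?_⟩
  obtain ⟨h3, h4, h5, h6, h7⟩ := hn0 n hn
  refine ⟨h3, fun D hD hDn K hK => ?_⟩
  set x : ℝ := (n : ℝ) with hx
  have hx3 : (3 : ℝ) ≤ x := by rw [hx]; exact_mod_cast h3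
  have hx0 : 0 < x := by linarith
  have hx1 : 1 ≤ x := by linarith
  have hD0 : (0 : ℝ) < D := by exact_mod_cast hD
  have hD3 : (D : ℝ) ^ 3 ≤ x ^ ((2 - t) / 8) := by
    calc (D : ℝ) ^ 3 ≤ (x ^ ((2 - t) / 24)) ^ 3 := pow_le_pow_left₀ hD0.le hDn 3
      _ = x ^ ((2 - t) / 8) := by
        rw [← Real.rpow_natCast, ← Real.rpow_mul hx0.le]
        congr 1
        push_cast
        ring
  have hKR : (K : ℝ) = 2 * ((D : ℝ) ^ 3 * m) := by rw [hK]; push_cast; ring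
  have hK1 : 1 ≤ K := by
    rw [hK]
    have : 1 ≤ D ^ 3 * m := Nat.mul_pos (Nat.pow_pos (by omega)) (by omega)
    omega
  have hK0 : (0 : ℝ) < K := by exact_mod_cast hK1
  have hK1R : (1 : ℝ) ≤ K := by exact_mod_cast hK1
  have hKx : (K : ℝ) ≤ 2 * m * x ^ ((2 - t) / 8) := by
    rw [hKR]
    nlinarith
  have hxe : x ^ (1 - (2 - t) / 8) * x ^ ((2 - t) / 8) = x := by
    rw [← Real.rpow_add hx0]
    rw [sub_add_cancel, Real.rpow_one]
  set y : ℝ := x ^ (1 - (2 - t) / 8) with hy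
  have hy0 : 0 < y := by rw [hy]; positivity
  have hq0 : 0 < x ^ ((2 - t) / 8) := by positivity
  have hdiv : y / (2 * m) ≤ x / K := by
    rw [div_le_div_iff₀ (by positivity) hK0]
    calc y * K ≤ y * (2 * m * x ^ ((2 - t) / 8)) := mul_le_mul_of_nonneg_left hKx hy0.le
      _ = (y * x ^ ((2 - t) / 8)) * (2 * m) := by ring
      _ = x * (2 * m) := by rw [hxe]
  have hn' : y / (4 * m) ≤ ((n / K : ℕ) : ℝ) := by
    have h8 : x / K < ((n / K : ℕ) : ℝ) + 1 := by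
      rw [div_lt_iff₀ hK0]
      have h9 : n < (n / K + 1) * K := by
        have := Nat.lt_mul_div_succ n (show 0 < K by omega)
        rw [mul_comm] at this
        exact this
      rw [hx]
      exact_mod_cast h9
    have h9 : y / (2 * m) = 2 * (y / (4 * m)) := by
      field_simp
      ring
    have h10 : 1 ≤ y / (4 * m) := by
      rw [le_div_iff₀ (by positivity), one_mul]
      exact h4
    linarith
  have hnle : ((n / K : ℕ) : ℝ) ≤ x / K := by
    rw [hx]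
    exact Nat.cast_div_le
  refine ⟨?_, ?_, ?_⟩
  · have h8 : (N1 : ℝ) ≤ y / (4 * m) := by
      rw [le_div_iff₀ (by positivity)]
      linarith
    exact_mod_cast h8.trans hn'
  · have h8 : (y / (4 * m)) ^ (1 + t / 2) ≤ ((n / K : ℕ) : ℝ) ^ (1 + t / 2) :=
      Real.rpow_le_rpow (by positivity) hn' (by linarith)
    refine le_trans ?_ h8
    rw [Real.div_rpow hy0.le (by positivity), le_div_iff₀ (by positivity)]
    have h9 : ((4 : ℝ) * m) ^ (1 + t / 2) ≤ (4 * m) ^ 2 := by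
      rw [← Real.rpow_natCast]
      apply Real.rpow_le_rpow_of_exponent_le (by linarith)
      push_cast
      linarith
    have h10 : x ^ t * x ^ ((2 - t) / 4) ≤ y ^ (1 + t / 2) := by
      rw [hy, ← Real.rpow_mul hx0.le, ← Real.rpow_add hx0]
      apply Real.rpow_le_rpow_of_exponent_le hx1
      nlinarith
    calc x ^ t * (4 * m) ^ (1 + t / 2) ≤ x ^ t * x ^ ((2 - t) / 4) :=
          mul_le_mul_of_nonneg_left (h9.trans h6) (by positivity)
      _ ≤ _ := h10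
  · have h8 : ((n / K : ℕ) : ℝ) ^ (1 + b / 2) ≤ (x / K) ^ (1 + b / 2) :=
      Real.rpow_le_rpow (Nat.cast_nonneg _) hnle (by linarith)
    have h9 : (x / K) ^ (1 + b / 2) * K ≤ x ^ (1 + b / 2) := by
      rw [Real.div_rpow hx0.le hK0.le, div_mul_eq_mul_div, div_le_iff₀ (by positivity)]
      apply mul_le_mul_of_nonneg_left _ (by positivity)
      calc (K : ℝ) = (K : ℝ) ^ (1 : ℝ) := (Real.rpow_one _).symm
        _ ≤ _ := Real.rpow_le_rpow_of_exponent_le hK1R (by linarith)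
    have h10 : (K : ℝ) ≤ 2 * m * x ^ (1 + b / 2) := by
      refine hKx.trans ?_
      apply mul_le_mul_of_nonneg_left _ (by positivity)
      exact Real.rpow_le_rpow_of_exponent_le hx1 (by linarith)
    have h11 : x ^ (1 + b) = x ^ (1 + b / 2) * x ^ (b / 2) := by
      rw [← Real.rpow_add hx0]
      congr 1
      ring
    have h12 : (0 : ℝ) < x ^ (1 + b / 2) := by positivity
    calc ((n / K : ℕ) : ℝ) ^ (1 + b / 2) * (2 * K) + K ≤
          2 * ((x / K) ^ (1 + b / 2) * K) + K := by nlinarith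
      _ ≤ 2 * x ^ (1 + b / 2) + 2 * m * x ^ (1 + b / 2) := by linarith
      _ = x ^ (1 + b / 2) * (2 + 2 * m) := by ring
      _ ≤ x ^ (1 + b / 2) * x ^ (b / 2) := mul_le_mul_of_nonneg_left h7 h12.le
      _ = x ^ (1 + b) := h11.symm

end Pool.Agent.helper747_ts
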