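import Pool.Agent.H560R2.Sum8

/-! The hard distributions of sets of integers: the negative sets have no solution at all, not even one with equal
elements.  (The proof of `sum_strong` is that of `Pool.Agent.H560R2.sum_hard`.) -/

set_option linter.unusedSectionVars false
set_option linter.unusedVariables false
set_option autoImplicit false

namespace Pool.Agent.helper747_ts

open Finset Pool.Agent.H560R2

theorem strong_of {m k M : ℕ} (y : Fin M → Set (Vw m k)) (h : ¬ Has3 (setZ y)) :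
    ∀ a ∈ setZ y, ∀ b ∈ setZ y, a + b ∉ setZ y := by
  intro x hx x' hx' hx''
  apply h
  rw [has3_setZ]
  obtain ⟨p, hp, rfl⟩ := (mem_setZ y x).mp hx
  obtain ⟨q, hq, rfl⟩ := (mem_setZ y x').mp hx'
  obtain ⟨r, hr, hs⟩ := (mem_setZ y _).mp hx''
  have hs' : num p + num q = num r := by exact_mod_cast hs.symm
  obtain ⟨i, a, b, rfl, ⟨rfl, rfl⟩ | ⟨rfl, rfl⟩⟩ := num_sum hs'
  · exact ⟨i, a, b, hp, hq, hr⟩
  · exact ⟨i, a, b, hq, hp, hr⟩

open Classical in
/-- The main theorem. -/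
theorem sum_strong (g t b : ℝ) (hg : 0 ≤ g) (ht : 0 ≤ t) (hb : 0 < b) (htg : t + 2 * g < 2) :
    ∃ a : ℝ, 0 < a ∧ ∃ n0 : ℕ, ∀ n : ℕ, n0 ≤ n →
      ∃ (Λ : Type) (_ : Fintype Λ) (_ : Nonempty Λ) (yes no : Λ → Finset ℤ),
        (∀ l, (yes l).card ≤ n ∧ (∀ z ∈ yes l, 0 ≤ z ∧ (z : ℝ) ≤ (n : ℝ) ^ (1 + g + b)) ∧
          Has3 (yes l)) ∧
        (∀ l, (no l).card ≤ n ∧ (∀ z ∈ no l, 0 ≤ z ∧ (z : ℝ) ≤ (n : ℝ) ^ (1 + g + b)) ∧
          ∀ a ∈ no l, ∀ b ∈ no l, a + b ∉ no l) ∧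
        ∀ (s : ℕ) (T : Finset (Fin s)) (w : Fin s → ℕ) (ar : ∀ i, Fin (w i) → ℤ ⊕ Fin s)
          (op : ∀ i, (Fin (w i) → ℝ) → ℝ) (θ : ∀ i, Fin (w i) → ℝ)
          (val : (ℤ → Bool) → Fin s → ℝ) (o : Fin s) (τ : ℝ),
          (∀ i j k, ar i j = Sum.inr k → k < i) → (∀ i ∉ T, w i ≤ 2 ∧ Monotone (op i)) →
          (∀ i ∈ T, ∀ z z' : Fin (w i) → ℝ, (∀ j, θ i j ≤ z j ↔ θ i j ≤ z' j) →
            op i z = op i z') →
          (∀ x i, val x i = op i (fun j => Sum.elim (bit x) (val x) (ar i j))) →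
          ((s + ∑ i ∈ T, w i : ℕ) : ℝ) ≤ (n : ℝ) ^ t →
          ((∏ i ∈ T, (w i + 1) : ℕ) : ℝ) ≤ (n : ℝ) ^ g →
          ((univ.filter (fun l : Λ => τ ≤ val (fun z => decide (z ∈ yes l)) o)).card : ℝ) /
              Fintype.card Λ ≤
            ((univ.filter (fun l : Λ => τ ≤ val (fun z => decide (z ∈ no l)) o)).card : ℝ) /
              Fintype.card Λ + (n : ℝ) ^ (-a) := by
  obtain ⟨h, hpar⟩ := params g t b hg ht hb htg
  obtain ⟨C0, Q, hQ, hC0, hblk⟩ := block_hard h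
  obtain ⟨a, ha, n0, hn0⟩ := hpar C0
  refine ⟨a, ha, n0, fun n hn => ?_⟩
  obtain ⟨κ, M, hM, hcard, hrange, herr⟩ := hn0 n hn
  obtain ⟨k, hk⟩ : ∃ k, k = (4 * h + 10) * κ := ⟨_, rfl⟩
  rw [← hk] at hcard hrange herr
  let P : Type := (Fin k → Fin (2 ^ h)) × (Fin k → Fin (2 ^ h))
  let N : Type := Fin k → ZMod Q
  haveI : NeZero Q := ⟨hQ.out.pos.ne'⟩
  haveI : Nonempty (Fin (2 ^ h)) := ⟨⟨0, by positivity⟩⟩
  haveI : Nonempty P := inferInstance
  haveI : Nonempty N := ⟨fun _ => 0⟩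
  haveI : Nonempty (Fin M) := ⟨⟨0, hM⟩⟩
  let sp : P → Finset (Vw (2 ^ h) k) := spos
  let sn : N → Finset (Vw (2 ^ h) k) := fun α => sneg α
  have hrg : ∀ y : Fin M → Set (Vw (2 ^ h) k), ∀ z ∈ setZ y, 0 ≤ z ∧
      (z : ℝ) ≤ (n : ℝ) ^ (1 + g + b) := by
    intro y z hz
    obtain ⟨h1, h2⟩ := setZ_range y z hz
    refine ⟨h1, le_trans ?_ hrange⟩
    have h3 : (z : ℝ) ≤ ((9 * (Pool.Agent.H560R2.hb (2 ^ h) k M : ℤ) : ℤ) : ℝ) := by
      exact_mod_cast h2
    refine h3.trans (le_of_eq ?_)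
    unfold Pool.Agent.H560R2.hb
    push_cast
    ring
  refine ⟨Fin M × (Fin M → N) × P, inferInstance, inferInstance,
    fun l => setZ (Function.update (stS sn l.2.1 l.1) l.1 (sp l.2.2 : Set _)),
    fun l => setZ (stS sn l.2.1 (l.1 + 1)), ?_, ?_, ?_⟩
  · intro l
    exact ⟨(setZ_card _).trans hcard, hrg _, has3_yes sn l.1 l.2.1 l.2.2⟩
  · intro l
    exact ⟨(setZ_card _).trans hcard, hrg _, strong_of _ (has3_no l.2.1 _)⟩
  · intro s T w ar op θ val o τ htop hmon hT hval hsize hfree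
    have hbits : ∀ y : Fin M → Set (Vw (2 ^ h) k),
        (fun z : ℤ => decide (z ∈ setZ y)) = Es (locZ (2 ^ h) k M) y := by
      intro y
      have h1 := setZ_bits y
      funext z
      have h2 := congrFun h1 z
      unfold bit at h2
      by_cases hz : z ∈ setZ y
      · rw [if_pos hz] at h2
        split_ifs at h2 with h3
        · rw [h3, decide_eq_true hz]
        · norm_num at h2
      · rw [if_neg hz] at h2
        split_ifs at h2 with h3
        · norm_num at h2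
        · rw [Bool.not_eq_true] at h3
          rw [h3, decide_eq_false hz]
    have hBH : BlockHard (s + ∑ i ∈ T, w i)
        (blkerr h C0 (2 ^ k) ((s + ∑ i ∈ T, w i : ℕ) : ℝ)) sp sn := by
      intro B hB L hL hlen g' hg' τ'
      have h1 := hblk κ k hk B hB L hL g' hg' τ'
      refine h1.trans ?_
      apply add_le_add_right
      have hlenR : (L.length : ℝ) ≤ ((s + ∑ i ∈ T, w i : ℕ) : ℝ) := by exact_mod_cast hlen
      unfold blkerr
      push_cast at hlenR ⊢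
      gcongr
    have h2 := avg_chain (V := Vw (2 ^ h) k) hBH hM (locZ (2 ^ h) k M) htop hmon hT hval le_rfl o τ
    simp only [hbits]
    refine le_trans h2 ?_
    rw [add_assoc]
    apply add_le_add_right
    refine le_trans ?_ herr
    apply add_le_add
    · exact div_le_div_of_nonneg_right hfree (Nat.cast_nonneg _)
    · unfold blkerr
      gcongr


end Pool.Agent.helper747_ts
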