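import Pool.Agent.helper747_ts.Circ
import Pool.Agent.helper747_ts.Hard

/-! The lower bound for circuits with unreliable negations. -/

set_option autoImplicit false

namespace Pool.Agent.helper747_ts

open Finset

section

variable {B D K : ℕ}

/-- sums of indicators -/
theorem card_sum {α : Type} [Fintype α] (P : α → Prop) [DecidablePred P] :
    (Nat.card {a : α // P a} : ℝ) = ∑ a, if P a then (1 : ℝ) else 0 := by
  rw [Nat.card_eq_fintype_card, Fintype.card_subtype, ← Finset.sum_filter, sum_const,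
    nsmul_eq_mul, mul_one]

/-- the hidden circuit accepts -/
def Acc (C : LiteralCircuit) (K : ℕ) (k : Fin (B + 1) → Fin D) (S : Finset ℤ) : Prop :=
  C.τ ≤ C.val (L K k (xS S)) C.out

theorem acc_no {C : LiteralCircuit} {k : Fin (B + 1) → Fin D} {S : Finset ℤ}
    (hS : ∀ z ∈ S, 0 ≤ z) (h : Acc C K k S) : C.Accepts (tg K S k) ∅ :=
  h.trans (val_mono C (fun p hp => L_le hS p hp) _)

theorem acc_yes {C : LiteralCircuit} {g h : Fin (B + 1) → Fin D} {S : Finset ℤ}
    (hS : ∀ z ∈ S, 0 ≤ z) (ha : C.Accepts (tg K S g) (faults h)) :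
    Acc C K (mix (Blk K S) g h) S :=
  ha.trans (val_mono C (fun p hp => le_L hS p hp) _)

open Classical in
/-- the hidden circuits accept a positive set with a large probability -/
theorem avg_yes {R : Type} [Fintype R] (C : R → LiteralCircuit) {S : Finset ℤ}
    (hS : ∀ z ∈ S, 0 ≤ z) (hD : 0 < D) {α η : ℝ} (hα : 0 ≤ α) (hα1 : α ≤ 1) (hη : 0 ≤ η)
    (hgood : (Nat.card {g : Fin (B + 1) → Fin D // ¬ HasSum (tg K S g)} : ℝ) ≤
      η * (D : ℝ) ^ (B + 1))
    (h : ∀ g : Fin (B + 1) → Fin D, HasSum (tg K S g) →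
      α * (Fintype.card R * (D : ℝ) ^ (B + 1)) ≤
        (Nat.card {v : R × (Fin (B + 1) → Fin D) // (C v.1).Accepts (tg K S g) (faults v.2)} : ℝ)) :
    (α - η) * (Fintype.card R * (D : ℝ) ^ (B + 1)) ≤
      ∑ ρ : R, ∑ k : Fin (B + 1) → Fin D, if Acc (C ρ) K k S then (1 : ℝ) else 0 := by
  have hD0 : (0 : ℝ) < D := by exact_mod_cast hD
  set N : ℝ := (D : ℝ) ^ (B + 1) with hN
  have hN0 : 0 < N := by rw [hN]; positivity
  have hR0 : (0 : ℝ) ≤ Fintype.card R := Nat.cast_nonneg _
  -- the sum over all `g`, `h`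
  have h1 : ∀ ρ : R, ∑ v : (Fin (B + 1) → Fin D) × (Fin (B + 1) → Fin D),
      (if (C ρ).Accepts (tg K S v.1) (faults v.2) then (1 : ℝ) else 0) ≤
      N * ∑ k : Fin (B + 1) → Fin D, if Acc (C ρ) K k S then (1 : ℝ) else 0 := by
    intro ρ
    have h2 := sum_mix (F := Fin D) (Blk (B := B) K S)
      (fun k => if Acc (C ρ) K k S then (1 : ℝ) else 0)
    rw [Fintype.card_fin, Fintype.card_fin, ← hN] at h2
    rw [← h2]
    refine Finset.sum_le_sum fun v _ => ?_
    by_cases ha : (C ρ).Accepts (tg K S v.1) (faults v.2)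
    · rw [if_pos ha, if_pos (acc_yes hS ha)]
    · rw [if_neg ha]
      split_ifs <;> norm_num
  have h3 : ∑ ρ : R, ∑ v : (Fin (B + 1) → Fin D) × (Fin (B + 1) → Fin D),
      (if (C ρ).Accepts (tg K S v.1) (faults v.2) then (1 : ℝ) else 0) =
      ∑ g : Fin (B + 1) → Fin D, (Nat.card {v : R × (Fin (B + 1) → Fin D) //
        (C v.1).Accepts (tg K S g) (faults v.2)} : ℝ) := by
    have e1 : ∀ g : Fin (B + 1) → Fin D, (Nat.card {v : R × (Fin (B + 1) → Fin D) //
        (C v.1).Accepts (tg K S g) (faults v.2)} : ℝ) =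
        ∑ ρ : R, ∑ f : Fin (B + 1) → Fin D,
          if (C ρ).Accepts (tg K S g) (faults f) then (1 : ℝ) else 0 := by
      intro g
      rw [card_sum, Fintype.sum_prod_type]
    simp only [e1, Fintype.sum_prod_type]
    rw [Finset.sum_comm]
  have hcount : (Fintype.card (Fin (B + 1) → Fin D) : ℝ) = N := by
    rw [Fintype.card_fun, Fintype.card_fin, Fintype.card_fin, hN]
    push_cast
    rfl
  have h4 : (1 - η) * N ≤ ∑ g : Fin (B + 1) → Fin D, if HasSum (tg K S g) then (1 : ℝ) else 0 := by
    have e2 : ∑ g : Fin (B + 1) → Fin D, (if HasSum (tg K S g) then (1 : ℝ) else 0) +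
        ∑ g : Fin (B + 1) → Fin D, (if ¬ HasSum (tg K S g) then (1 : ℝ) else 0) = N := by
      rw [← Finset.sum_add_distrib, ← hcount]
      rw [Finset.sum_congr rfl (g := fun _ => (1 : ℝ))]
      · rw [sum_const, card_univ, nsmul_eq_mul, mul_one]
      · intro g _
        by_cases hg : HasSum (tg K S g) <;> simp [hg]
    rw [card_sum] at hgood
    linarith
  have h5 : α * (Fintype.card R * N) * ((1 - η) * N) ≤
      ∑ g : Fin (B + 1) → Fin D, (Nat.card {v : R × (Fin (B + 1) → Fin D) //
        (C v.1).Accepts (tg K S g) (faults v.2)} : ℝ) := by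
    refine (mul_le_mul_of_nonneg_left h4 (by positivity)).trans ?_
    rw [mul_sum]
    refine Finset.sum_le_sum fun g _ => ?_
    by_cases hg : HasSum (tg K S g)
    · rw [if_pos hg, mul_one]
      exact h g hg
    · rw [if_neg hg, mul_zero]
      exact Nat.cast_nonneg _
  have h6 := Finset.sum_le_sum (fun (ρ : R) (_ : ρ ∈ univ) => h1 ρ)
  rw [h3, ← mul_sum] at h6
  have h7 := h5.trans h6
  have h8 : α * (Fintype.card R * N) * (1 - η) ≤
      ∑ ρ : R, ∑ k : Fin (B + 1) → Fin D, if Acc (C ρ) K k S then (1 : ℝ) else 0 := by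
    have e3 : α * (Fintype.card R * N) * ((1 - η) * N) = N * (α * (Fintype.card R * N) * (1 - η)) := by
      ring
    rw [e3] at h7
    exact le_of_mul_le_mul_left h7 hN0
  refine le_trans ?_ h8
  have h9 : (0 : ℝ) ≤ Fintype.card R * N := by positivity
  have h10 : α - η ≤ α * (1 - η) := by nlinarith
  calc (α - η) * (Fintype.card R * N) ≤ (α * (1 - η)) * (Fintype.card R * N) :=
        mul_le_mul_of_nonneg_right h10 h9
    _ = _ := by ring

/-- the hidden circuits are monotone circuits -/
theorem hidden {n : ℕ} {t a : ℝ} {Λ : Type} [Fintype Λ] (yes no : Λ → Finset ℤ)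
    (H : ∀ (s : ℕ) (T : Finset (Fin s)) (w : Fin s → ℕ) (ar : ∀ i, Fin (w i) → ℤ ⊕ Fin s)
          (op : ∀ i, (Fin (w i) → ℝ) → ℝ) (θ : ∀ i, Fin (w i) → ℝ)
          (val : (ℤ → Bool) → Fin s → ℝ) (o : Fin s) (τ : ℝ),
          (∀ i j k, ar i j = Sum.inr k → k < i) → (∀ i ∉ T, w i ≤ 2 ∧ Monotone (op i)) →
          (∀ i ∈ T, ∀ z z' : Fin (w i) → ℝ, (∀ j, θ i j ≤ z j ↔ θ i j ≤ z' j) →
            op i z = op i z') →
          (∀ x i, val x i = op i (fun j => Sum.elim (Pool.Agent.H560R2.bit x) (val x) (ar i j))) →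
          ((s + ∑ i ∈ T, w i : ℕ) : ℝ) ≤ (n : ℝ) ^ t →
          ((∏ i ∈ T, (w i + 1) : ℕ) : ℝ) ≤ (n : ℝ) ^ (0 : ℝ) →
          (Nat.card {l : Λ // τ ≤ val (xS (yes l)) o} : ℝ) / Fintype.card Λ ≤
            (Nat.card {l : Λ // τ ≤ val (xS (no l)) o} : ℝ) / Fintype.card Λ + (n : ℝ) ^ (-a))
    (C : LiteralCircuit) (k : Fin (B + 1) → Fin D) (hC : (C.s : ℝ) ≤ (n : ℝ) ^ t) :
    (Nat.card {l : Λ // Acc C K k (yes l)} : ℝ) / Fintype.card Λ ≤
      (Nat.card {l : Λ // Acc C K k (no l)} : ℝ) / Fintype.card Λ + (n : ℝ) ^ (-a) := by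
  classical
  let one : (ℤ × Bool) ⊕ Fin C.s → Prop := fun q =>
    match q with
    | Sum.inl p => p.2 = false ∧ p.1 ∉ faults k
    | Sum.inr _ => False
  let ar : ∀ i, Fin (C.w i) → ℤ ⊕ Fin C.s := fun i j =>
    match C.a i j with
    | Sum.inl p => Sum.inl (src K k p)
    | Sum.inr m => Sum.inr m
  let op : ∀ i, (Fin (C.w i) → ℝ) → ℝ := fun i v =>
    C.op i (fun j => if one (C.a i j) then 1 else v j)
  have h := H C.s ∅ C.w ar op (fun _ _ => 0) (fun x => C.val (L K k x)) C.out C.τ
    (by
      intro i j m hm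
      apply C.earlier i j m
      revert hm
      show (match C.a i j with
        | Sum.inl p => Sum.inl (src K k p)
        | Sum.inr m => Sum.inr m : ℤ ⊕ Fin C.s) = Sum.inr m → C.a i j = Sum.inr m
      rcases C.a i j with p | m'
      · intro hm
        exact absurd hm (by simp)
      · intro hm
        have : m' = m := Sum.inr.inj hm
        rw [this])
    (by
      intro i _
      refine ⟨(C.mono i).1, fun v v' hv => (C.mono i).2 fun j => ?_⟩
      show (if one (C.a i j) then (1 : ℝ) else v j) ≤ if one (C.a i j) then (1 : ℝ) else v' j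
      by_cases ho : one (C.a i j)
      · rw [if_pos ho, if_pos ho]
      · rw [if_neg ho, if_neg ho]
        exact hv j)
    (by
      intro i hi
      exact absurd hi (notMem_empty i))
    (by
      intro x i
      show C.val (L K k x) i = C.op i (fun j => if one (C.a i j) then (1 : ℝ) else
        Sum.elim (Pool.Agent.H560R2.bit x) (C.val (L K k x)) (ar i j))
      rw [C.spec (L K k x) i]
      congr 1
      funext j
      show Sum.elim (fun p => if L K k x p = true then (1 : ℝ) else 0) (C.val (L K k x)) (C.a i j) =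
        if one (C.a i j) then (1 : ℝ) else
          Sum.elim (Pool.Agent.H560R2.bit x) (C.val (L K k x)) (match C.a i j with
            | Sum.inl p => Sum.inl (src K k p)
            | Sum.inr m => Sum.inr m)
      rcases C.a i j with p | m
      · have hone : one (Sum.inl p) ↔ (p.2 = false ∧ p.1 ∉ faults k) := Iff.rfl
        by_cases h1 : one (Sum.inl p)
        · rw [if_pos h1]
          have h2 : L K k x p = true := by
            unfold L
            rw [if_pos (hone.1 h1)]
          show (if L K k x p = true then (1 : ℝ) else 0) = 1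
          rw [if_pos h2]
        · rw [if_neg h1]
          have h2 : L K k x p = x (src K k p) := by
            unfold L
            rw [if_neg (fun h => h1 (hone.2 h))]
          show (if L K k x p = true then (1 : ℝ) else 0) = Pool.Agent.H560R2.bit x (src K k p)
          rw [h2]
          rfl
      · rw [if_neg (fun h : one (Sum.inr m) => h)]
        rfl)
    (by
      rw [Finset.sum_empty, Nat.add_zero]
      exact hC)
    (by
      rw [Finset.prod_empty, Real.rpow_zero]
      norm_num)
  exact h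

end

end Pool.Agent.helper747_ts
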